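import Mathlib
import Pool.Agent.Work.MP_4ec80c_gt.Norm
import Pool.Agent.Work.MP_4ec80c_gt.ItemE

/-!
MP_4ec80c_gt, Q1: every element of the group of orientation-preserving `C^∞` diffeomorphisms of the
circle is a single commutator.

The group is described twice: as a group of permutations of `ℝ/ℤ` (by lifts to the real line), and
by Mathlib's diffeomorphisms of the manifold `Circle`, the unit circle of the complex numbers.
-/

set_option autoImplicit false

open scoped Manifold

namespace Pool.Agent.Results.MP_4ec80c_gt.EveryElement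

/-- The `C^∞` diffeomorphisms of Mathlib's manifold `Circle`, the unit circle of `ℂ`. -/
abbrev CircleDiff : Type :=
  Diffeomorph (𝓡 1) (𝓡 1) Circle Circle ((⊤ : ℕ∞) : WithTop ℕ∞)

/-- The value `f (z)` of the diffeomorphism `f` at the point `z`. -/
noncomputable def app (f : CircleDiff) (z : Circle) : Circle := f z

/-- The inverse diffeomorphism `f⁻¹`. -/
noncomputable def inv (f : CircleDiff) : CircleDiff := f.symm

/-- `F` is a lift to the real line of an orientation-preserving `C^∞` diffeomorphism of `ℝ/ℤ`: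
`F` is of class `C^∞`, `F' > 0` everywhere and `F (x + 1) = F x + 1`. -/
def IsLift (F : ℝ → ℝ) : Prop :=
  ContDiff ℝ ((⊤ : ℕ∞) : WithTop ℕ∞) F ∧ (∀ x, 0 < deriv F x) ∧ ∀ x, F (x + 1) = F x + 1

theorem IsLift.si {F : ℝ → ℝ} (h : IsLift F) : W4ec.SI F := ⟨h.1, h.2.1⟩

/-- a lift is surjective, so it is an element of the group of diffeomorphisms of the line -/
theorem IsLift.exists_perm {F : ℝ → ℝ} (h : IsLift F) :
    ∃ E ∈ W4ec.Dg, (∀ x, E (x + 1) = E x + 1) ∧ ∀ x, E x = F x := by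
  have h5 : ∀ n : ℕ, F n = F 0 + n := by
    intro n
    induction n with
    | zero => simp
    | succ n ih => push_cast; rw [h.2.2, ih]; ring
  have h6 : ∀ n : ℕ, F (-n) = F 0 - n := by
    intro n
    induction n with
    | zero => simp
    | succ n ih =>
      have := h.2.2 (-((n + 1 : ℕ) : ℝ))
      have h7 : (-((n + 1 : ℕ) : ℝ)) + 1 = -(n : ℝ) := by push_cast; ring
      rw [h7, ih] at this
      rw [eq_sub_iff_add_eq]
      push_cast at this ⊢
      linarith
  have hsurj : Function.Surjective F := by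
    intro y
    obtain ⟨n, hn⟩ := exists_nat_gt (|y - F 0|)
    rw [abs_lt] at hn
    apply mem_range_of_exists_le_of_exists_ge h.si.continuous
    · exact ⟨-n, by rw [h6]; linarith [hn.1]⟩
    · exact ⟨n, by rw [h5]; linarith [hn.2]⟩
  obtain ⟨E, hE, hE2⟩ := h.si.exists_Dg hsurj
  exact ⟨E, hE, fun x => by rw [hE2, hE2, h.2.2], hE2⟩

/-- The group `Diff₊^∞(S¹)` of the orientation-preserving `C^∞` diffeomorphisms of `S¹ = ℝ/ℤ`,
under composition: the permutations `f` of `ℝ/ℤ` such that `f (x mod 1) = F x mod 1` for all real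
`x`, for some function `F : ℝ → ℝ` of class `C^∞` with `F' > 0` and `F (x + 1) = F x + 1`. -/
def DiffPlus : Subgroup (Equiv.Perm (AddCircle (1 : ℝ))) where
  carrier := {f | ∃ F : ℝ → ℝ, IsLift F ∧
    ∀ x : ℝ, f (x : AddCircle (1 : ℝ)) = ((F x : ℝ) : AddCircle (1 : ℝ))}
  mul_mem' := by
    rintro f g ⟨F, hF, hf⟩ ⟨G, hG, hg⟩
    refine ⟨fun x => F (G x), ⟨(hF.si.comp hG.si).smooth, (hF.si.comp hG.si).pos, fun x => ?_⟩,
      fun x => ?_⟩
    · simp only [hG.2.2, hF.2.2]
    · rw [Equiv.Perm.mul_apply, hg, hf]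
  one_mem' := ⟨fun x => x, ⟨contDiff_id, fun x => by simp, fun x => rfl⟩, fun x => rfl⟩
  inv_mem' := by
    rintro f ⟨F, hF, hf⟩
    obtain ⟨E, hE, hE1, hE2⟩ := hF.exists_perm
    have hEi : E⁻¹ ∈ W4ec.Dg := W4ec.Dg.inv_mem hE
    refine ⟨(E⁻¹ : Equiv.Perm ℝ), ⟨(W4ec.Dg.si hEi).smooth, (W4ec.Dg.si hEi).pos,
      W4ec.symm_add_one hE1⟩, fun x => ?_⟩
    rw [Equiv.Perm.inv_eq_iff_eq, hf, ← hE2, W4ec.papply_inv]

/-- The diffeomorphism `f` of the circle `Circle ⊂ ℂ` preserves the orientation: it has a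
continuous strictly increasing lift `F` to the real line, `f (e^(ix)) = e^(iF(x))`. -/
def OP (f : CircleDiff) : Prop :=
  ∃ F : ℝ → ℝ, Continuous F ∧ StrictMono F ∧ ∀ x : ℝ, app f (Circle.exp x) = Circle.exp (F x)

/-- the permutation of `ℝ/ℤ` with a given lift -/
theorem exists_of_lift {G : Equiv.Perm ℝ} (hG : G ∈ W4ec.Dg) (hG1 : ∀ x, G (x + 1) = G x + 1) :
    ∃ g ∈ DiffPlus, ∀ x : ℝ, g (x : AddCircle (1 : ℝ)) = ((G x : ℝ) : AddCircle (1 : ℝ)) := by
  have hp : ∀ {A : Equiv.Perm ℝ} (_ : ∀ x, A (x + 1) = A x + 1),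
      Function.Periodic (fun x : ℝ => ((A x : ℝ) : AddCircle (1 : ℝ))) 1 := by
    intro A hA x
    simp only
    rw [hA]
    exact AddCircle.coe_add_period 1 (A x)
  have hG1' := W4ec.symm_add_one hG1
  have hl : ∀ x : ℝ, (hp hG1).lift (x : AddCircle (1 : ℝ)) = ((G x : ℝ) : AddCircle (1 : ℝ)) :=
    fun x => Function.Periodic.lift_coe _ x
  have hr : ∀ x : ℝ, (hp hG1').lift (x : AddCircle (1 : ℝ)) =
      ((G.symm x : ℝ) : AddCircle (1 : ℝ)) :=
    fun x => Function.Periodic.lift_coe _ x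
  refine ⟨⟨(hp hG1).lift, (hp hG1').lift, ?_, ?_⟩, ⟨G, ⟨(W4ec.Dg.si hG).smooth,
    (W4ec.Dg.si hG).pos, hG1⟩, hl⟩, hl⟩
  · intro y
    obtain ⟨x, rfl⟩ := QuotientAddGroup.mk_surjective y
    change (hp hG1').lift ((hp hG1).lift (x : AddCircle (1 : ℝ))) = (x : AddCircle (1 : ℝ))
    rw [hl, hr, G.symm_apply_apply]
  · intro y
    obtain ⟨x, rfl⟩ := QuotientAddGroup.mk_surjective y
    change (hp hG1).lift ((hp hG1').lift (x : AddCircle (1 : ℝ))) = (x : AddCircle (1 : ℝ))
    rw [hr, hl, G.apply_symm_apply]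

theorem part_one : ∀ f ∈ DiffPlus, ∃ g ∈ DiffPlus, ∃ h ∈ DiffPlus, f = g * h * g⁻¹ * h⁻¹ := by
  rintro f ⟨F, hF, hf⟩
  obtain ⟨E, hE, hE1, hE2⟩ := hF.exists_perm
  obtain ⟨G, hG, K, hK, hG1, hK1, k, hk⟩ := W4ec.main_line E hE hE1
  obtain ⟨g, hg, hg2⟩ := exists_of_lift hG hG1
  obtain ⟨h, hh, hh2⟩ := exists_of_lift hK hK1
  refine ⟨g, hg, h, hh, ?_⟩
  have key : f * (h * g) = g * h := by
    ext y
    obtain ⟨x, rfl⟩ := QuotientAddGroup.mk_surjective y
    change f (h (g (x : AddCircle (1 : ℝ)))) = g (h (x : AddCircle (1 : ℝ)))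
    rw [hg2, hh2, hf, hh2, hg2, ← hE2, hk]
    have h0 : ((k : ℝ) : AddCircle (1 : ℝ)) = 0 := by
      rw [AddCircle.coe_eq_zero_iff]
      exact ⟨k, by simp⟩
    rw [AddCircle.coe_add, h0, add_zero]
  rw [eq_mul_inv_of_mul_eq key, mul_inv_rev, ← mul_assoc]

theorem part_two (f : Diffeomorph (𝓡 1) (𝓡 1) Circle Circle ((⊤ : ℕ∞) : WithTop ℕ∞)) (hf : OP f) :
    ∃ g h : Diffeomorph (𝓡 1) (𝓡 1) Circle Circle ((⊤ : ℕ∞) : WithTop ℕ∞),
      OP g ∧ OP h ∧ ∀ z : Circle, f z = g (h (g.symm (h.symm z))) :=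
  W4ec.circle_reduction W4ec.main_line f hf

theorem part_three (f : Diffeomorph (𝓡 1) (𝓡 1) Circle Circle ((⊤ : ℕ∞) : WithTop ℕ∞)) :
    OP f ↔ ∀ x : ℝ, ∃ c : ℝ, 0 < c ∧
      HasDerivAt (fun t : ℝ => (f (Circle.exp t) : ℂ)) (c * (Complex.I * f (Circle.exp x))) x := by
  constructor
  · rintro ⟨F, hF, hFm, hf0⟩ x
    have hf : ∀ x : ℝ, f (Circle.exp x) = Circle.exp (F x) := hf0
    have hs := W4ec.SI_lift hF hFm f hf
    refine ⟨deriv F x, hs.pos x, ?_⟩
    have h1 : (fun t : ℝ => (f (Circle.exp t) : ℂ)) =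
        fun t : ℝ => Complex.exp (((F t : ℝ) : ℂ) * Complex.I) := by
      funext t
      rw [hf, Circle.coe_exp]
    rw [h1, hf, Circle.coe_exp]
    have h2 := ((hs.hasDerivAt x).ofReal_comp.mul_const Complex.I).cexp
    convert h2 using 1
    ring
  · intro h
    choose c hc hd using h
    set φ : ℝ → ℂ := fun t : ℝ => (f (Circle.exp t) : ℂ) with hφ
    have hφ1 : ∀ t, ‖φ t‖ = 1 := fun t => Circle.norm_coe _
    have hφ0 : ∀ t, φ t ≠ 0 := fun t h0 => by
      have := hφ1 t
      rw [h0, norm_zero] at this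
      exact zero_ne_one this
    have hsm : ContDiff ℝ ((⊤ : ℕ∞) : WithTop ℕ∞) φ := by
      have h1 : ContMDiff 𝓘(ℝ, ℝ) 𝓘(ℝ, ℂ) ((⊤ : ℕ∞) : WithTop ℕ∞) φ :=
        W4ec.cm_coe.comp (f.contMDiff.comp contMDiff_circleExp)
      exact h1.contDiff
    have hcc : Continuous c := by
      have h1 : ∀ x, (c x : ℂ) = deriv φ x / (Complex.I * φ x) := by
        intro x
        rw [(hd x).deriv]
        have := mul_ne_zero Complex.I_ne_zero (hφ0 x)
        exact (mul_div_cancel_right₀ _ this).symm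
      have h2 : Continuous fun x => deriv φ x / (Complex.I * φ x) := by
        refine ((hsm.continuous_deriv (by simp)).div
          (continuous_const.mul hsm.continuous) fun x => ?_)
        exact mul_ne_zero Complex.I_ne_zero (hφ0 x)
      have h3 : c = fun x => (deriv φ x / (Complex.I * φ x)).re := by
        funext x
        rw [← h1, Complex.ofReal_re]
      rw [h3]
      exact Complex.continuous_re.comp h2
    set F : ℝ → ℝ := fun x => Complex.arg (φ 0) + ∫ t in (0 : ℝ)..x, c t with hF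
    have hFd : ∀ x, HasDerivAt F (c x) x := by
      intro x
      have h1 := intervalIntegral.integral_hasDerivAt_right (hcc.intervalIntegrable 0 x)
        (hcc.stronglyMeasurableAtFilter _ _) hcc.continuousAt
      exact h1.const_add _
    have hFm : StrictMono F := strictMono_of_deriv_pos fun x => by
      rw [(hFd x).deriv]
      exact hc x
    have hFc : Continuous F := continuous_iff_continuousAt.2 fun x => (hFd x).continuousAt
    refine ⟨F, hFc, hFm, ?_⟩
    -- the quotient is constant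
    set ψ : ℝ → ℂ := fun x => φ x * Complex.exp (-(((F x : ℝ) : ℂ) * Complex.I)) with hψ
    have hψd : ∀ x, HasDerivAt ψ 0 x := by
      intro x
      have h2 := (((hFd x).ofReal_comp.mul_const Complex.I).neg).cexp
      have h3 : HasDerivAt ψ ((c x : ℂ) * (Complex.I * φ x) *
          Complex.exp (-(((F x : ℝ) : ℂ) * Complex.I)) +
          φ x * (Complex.exp (-(((F x : ℝ) : ℂ) * Complex.I)) * -((c x : ℂ) * Complex.I))) x :=
        (hd x).mul h2
      have h4 : (c x : ℂ) * (Complex.I * φ x) * Complex.exp (-(((F x : ℝ) : ℂ) * Complex.I)) +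
          φ x * (Complex.exp (-(((F x : ℝ) : ℂ) * Complex.I)) * -((c x : ℂ) * Complex.I)) = 0 := by
        ring
      rw [h4] at h3
      exact h3
    have hconst : ∀ x, ψ x = ψ 0 := by
      intro x
      exact is_const_of_deriv_eq_zero (fun y => (hψd y).differentiableAt)
        (fun y => (hψd y).deriv) x 0
    have hψ0 : ψ 0 = 1 := by
      simp only [hψ, hF, intervalIntegral.integral_same, add_zero]
      have h1 : φ 0 = Complex.exp (((Complex.arg (φ 0) : ℝ) : ℂ) * Complex.I) := by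
        have := Complex.norm_mul_exp_arg_mul_I (φ 0)
        rw [hφ1, Complex.ofReal_one, one_mul] at this
        exact this.symm
      nth_rewrite 1 [h1]
      rw [← Complex.exp_add, add_neg_cancel, Complex.exp_zero]
    intro x
    apply Circle.ext
    rw [Circle.coe_exp]
    have h1 : ψ x = 1 := (hconst x).trans hψ0
    have h2 : φ x * Complex.exp (-(((F x : ℝ) : ℂ) * Complex.I)) = 1 := h1
    rw [Complex.exp_neg] at h2
    exact eq_of_mul_inv_eq_one h2

theorem part_four (f : Equiv.Perm (AddCircle (1 : ℝ))) :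
    f ∈ DiffPlus ↔ ∃ φ : Diffeomorph (𝓡 1) (𝓡 1) Circle Circle ((⊤ : ℕ∞) : WithTop ℕ∞), OP φ ∧
      ∀ y : AddCircle (1 : ℝ), φ (AddCircle.toCircle y) = AddCircle.toCircle (f y) := by
  have hpi := Real.pi_pos
  constructor
  · rintro ⟨F, hF, hf⟩
    obtain ⟨E, hE, hE1, hE2⟩ := hF.exists_perm
    refine ⟨W4ec.cdiff E hE1 hE, ⟨fun x => 2 * Real.pi * E (x / (2 * Real.pi)), ?_, ?_, ?_⟩, ?_⟩
    · have := (W4ec.Dg.si hE).continuous
      fun_prop
    · intro x y hxy
      have h1 : x / (2 * Real.pi) < y / (2 * Real.pi) := by gcongr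
      have h2 := W4ec.Dg.strictMono hE h1
      simp only
      gcongr
    · exact fun x => W4ec.cdiff_exp E hE1 hE x
    · intro y
      obtain ⟨x, rfl⟩ := QuotientAddGroup.mk_surjective y
      rw [hf, AddCircle.toCircle_apply_mk, AddCircle.toCircle_apply_mk, W4ec.cdiff_exp, hE2]
      congr 1
      rw [div_one, mul_div_cancel_left₀ _ (by positivity : (2 * Real.pi) ≠ 0)]
  · rintro ⟨φ, ⟨F, hF, hFm, hφ⟩, hy⟩
    obtain ⟨E, hE, hE1, hE2⟩ := W4ec.exists_Dg_lift hF hFm φ hφ
    refine ⟨E, ⟨(W4ec.Dg.si hE).smooth, (W4ec.Dg.si hE).pos, hE1⟩, fun x => ?_⟩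
    apply AddCircle.injective_toCircle (one_ne_zero)
    rw [← hy, AddCircle.toCircle_apply_mk, AddCircle.toCircle_apply_mk]
    have h1 := hE2 x
    simp only [div_one]
    exact h1

/-- (1) For `S¹ = ℝ/ℤ`: every `f` in the group `DiffPlus` equals `g * h * g⁻¹ * h⁻¹` for some `g, h`
in `DiffPlus`. -/
def EveryElementIsCommutator : Prop :=
  ∀ f ∈ DiffPlus, ∃ g ∈ DiffPlus, ∃ h ∈ DiffPlus, f = g * h * g⁻¹ * h⁻¹

/-- (2) The same for the orientation-preserving `C^∞` diffeomorphisms of the manifold `Circle`. -/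
def CircleForm : Prop :=
  ∀ f : CircleDiff, OP f → ∃ g h : CircleDiff, OP g ∧ OP h ∧
    ∀ z : Circle, app f z = app g (app h (app (inv g) (app (inv h) z)))

/-- (3) A `C^∞` diffeomorphism `f` of `Circle` preserves the orientation in the sense of `OP` if and
only if its derivative maps the positive unit tangent vector `i e^(ix)` at every point `e^(ix)` to a
positive multiple `c` of the positive unit tangent vector `i f(e^(ix))` at the image point. -/
def OrientationDictionary : Prop :=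
  ∀ f : CircleDiff, OP f ↔ ∀ x : ℝ, ∃ c : ℝ, 0 < c ∧
    HasDerivAt (fun t : ℝ => (app f (Circle.exp t) : ℂ))
      (c * (Complex.I * app f (Circle.exp x))) x

/-- (4) The two groups are the same: a permutation `f` of `ℝ/ℤ` is in `DiffPlus` if and only if
`x mod 1 ↦ e^(2πix)` carries it to an orientation-preserving `C^∞` diffeomorphism of `Circle`. -/
def GroupDictionary : Prop :=
  ∀ f : Equiv.Perm (AddCircle (1 : ℝ)), f ∈ DiffPlus ↔ ∃ φ : CircleDiff, OP φ ∧
    ∀ y : AddCircle (1 : ℝ), app φ (AddCircle.toCircle y) = AddCircle.toCircle (f y)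

/-- **Every element of `Diff₊^∞(S¹)` is a single commutator**, for `S¹ = ℝ/ℤ` and for the manifold
`Circle`; the last two statements say that the definitions agree with each other and with the
definition of orientation-preserving by the derivative. -/
theorem result :
    EveryElementIsCommutator ∧ CircleForm ∧ OrientationDictionary ∧ GroupDictionary :=
  ⟨part_one, part_two, part_three, part_four⟩

end Pool.Agent.Results.MP_4ec80c_gt.EveryElement
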